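import Pool.Agent.N179.ST.Fin

/-!
# The strong Tate conjecture (orders of poles) for the products of K3 surfaces whose reductions at one
# place have different heights with arbitrary varieties

Let `k₀` be a finitely generated field of characteristic `p`, for example a finite field, `Γ` its Galois
group, `W` the `ℓ`-adic cohomology of the smooth projective varieties over the separable closure with
coefficients in an algebraic closure `K` of `ℚ_ℓ`, and `χ` the inverse of the cyclotomic character. A
class `c ∈ H^(2j)` is a Tate class if `g c = χ(g)^j c` for all `g` in an open subgroup. A *generalized* Tate
class (`GenTate`) is a class in the largest subspace of `H^(2j)(j)` on which an open subgroup acts by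
unipotent operators (inductively: `g c - χ(g)^j c` is a generalized Tate class for all `g` in an open
subgroup). If `k₀` is finite, these are the generalized eigenvectors with the eigenvalues `q^(js)` of
`F^s`, `F` the Frobenius, and their number is the multiplicity of this eigenvalue, the order of the pole
of the L-function `det(1 - F^s q^(-st) | H^(2j))^(-1)` of the variety over the extension of degree `s` at
`t = j`. If `k₀` has positive transcendence degree, let `U₀` be a model; by Deligne the action of the
geometric fundamental group of `U₀` is semisimple, and so the dimension of the space of the generalized
Tate classes (for `k₀` and its finite extensions) is the multiplicity of the eigenvalue `q^j` on the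
geometric invariants, which is the order of the pole of the L-function of the problem at
`s = j + dim_a(k₀)`. So the **strong Tate conjecture** (`StrongTate`: all generalized Tate classes are
combinations of classes of cycles) says that for all `j` and all finite extensions of `k₀` the order of
the pole is the dimension of the span of the classes of cycles. For a projective variety it implies that
homological and numerical equivalence are the same, and Q1 for all `j` and all finite extensions (by
duality the pairing on the span of the classes of cycles is perfect, so the rank of `A^j` is the
dimension of its span).

Let `v` be **one** place of `k₀` (a closed point of a model), with the residue field with `q = p ^ m`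
elements, and `F ∈ Γ` a geometric Frobenius element at `v`. The theorem is proved for an abstract Weil
cohomology theory with an action of a group and one element `F` of it.

Let `X i` be K3 surfaces over `k₀` with good reduction at `v`, of finite height `h i`
(`HasK3Reduction` with `n i = 1`: the eigenvalues of `F` on the transcendental cohomology `T i` of
`X i` are, up to roots of unity, `q` and the conjugates of a number `q α i`, where all powers of `α i`
generate a CM field `E i`, all complex absolute values of `α i` are one, the `p`-adic embeddings with
`|α i| > 1` belong to one place and there `|α i| = q ^ (1 / h i)`; the numbers `q α i` occur on every
nonzero subspace of `T i` which is stable under an open subgroup). `b i` is the number of the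
eigenvalues `q α i` with multiplicities. More generally `X i` may be a variety for which the eigenvalues
of `F` on the transcendental cohomology are products of powers of `q` and of at most `n i` conjugates
of one number `α i` as above: cubic fourfolds (`n = 1`), powers of K3 surfaces and their Hilbert schemes
of points, for which the Tate conjecture is known.

Let `U` be **any smooth variety** over `k₀`, proper or not (`AnyVar`), for instance projective, `Z` a
smooth projective variety, for example a point, and `G` a set of rational numbers which contains `0`,
such that the eigenvalues of `F` on the cohomology of `Z × U` of even weight `w` have slopes in `w / 2 + G`
(`SlopesTimes`). Suppose (`Admissible`) that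

* integers `a i`, `|a i| ≤ n i`, such that `∑ a i / h i` belongs to `G` are zero, and that `n i ≤ 2`, or
  `n i = 3` and `(d i, m i) ∉ exceptionalPairs`, or `m i` is odd and `(d i, m i) ∉ exceptionalOddPairs`,
  where `[E i : ℚ] = 2 d i` and `m i` is the local degree; or
* (`G = {0}`) this only for the `a i` with index `i` in a set of indices (the `Isolated` ones), and for
  the other indices only that `n i = 1`, that the `h i` are different, and that there are not three such
  indices with `(h, b) = (2, 4), (3, 6), (6, 12)` (the bounds `h ≤ 11`, `b ≤ 23` hold for all K3
  surfaces).

**Theorem.** Let `Y` be the product of some of the `X i` and `Z`. The strong Tate conjecture for `Y × U`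
is equivalent to the strong Tate conjecture for `Z × U`.

In particular (`Z` a point): for all products `X` of K3 surfaces over a finitely generated field of
characteristic `p` whose reductions at one place have finite, pairwise different heights (not `2, 3, 6`
with the Picard numbers `18, 16, 10`), and every curve `C`, the order of the pole of the L-function of
`H^(2j)(X × C)` at the point of the problem is the rank of `A^j(X × C)`, for all `j` and all finite
extensions; and for every variety `U` with integral slopes in even weights at the place the strong Tate
conjecture for `X × U`, `X` a K3 surface of height `h > 1`, is equivalent to the one for `U`.

The action of `Γ` on the cohomology of `U` is not assumed to be semisimple (this is part of the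
conjecture), nor is anything assumed about homological and numerical equivalence on `U`. The theorem is
not a consequence of the equivalence for the Tate conjecture itself
(`MP_2a05c8_ag.DifferentHeightsTimesSmooth`), which says nothing about generalized eigenvectors.

The idea: the contractions of a generalized Tate class on `X i × Y × U` with the linear forms on the
cohomology of `Y × U` span a subspace of `T i` (after the projection); by induction one may assume that
it is stable under an open subgroup. If it is not zero then it contains an eigenvector of a power of `F`
with an eigenvalue which is not a power of `q`, and the inverse eigenvalue (up to a power of `q`) occurs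
on `Y × U`. The slopes exclude such relations. The components with respect to a basis of the algebraic
classes on `X i` are generalized Tate classes on `Y × U`.
-/

set_option autoImplicit false

open CategoryTheory AlgebraicGeometry NumberField

universe u v w

namespace Pool.Agent.Results.MP_223b32_ag.DifferentHeights

open Pool.Agent.H914 Pool.Agent.TH125.Gal Pool.Agent.W517.K3 Pool.Agent.N179.TL
  Pool.Agent.N179.FG Pool.Agent.N179.FO Pool.Agent.N179.ST VarClass Obj WeilCohomology

/-- **The strong Tate conjecture for the products of K3 surfaces whose reductions at one place have
different heights with arbitrary varieties.** -/
theorem result {k : Type u} [Field k] {𝒱 : VarClass k} {ops : CycleOps 𝒱}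
    {W : WeilCohomology.{u, v} ops} [IsAlgClosed W.K] {Γ : Type w} [Group Γ] (χ : Γ →* W.Kˣ)
    (F : Γ) (p m : ℕ) [Fact p.Prime] (hm : 0 < m) (hχ : (χ F : W.K) = (p : W.K) ^ m)
    {r : ℕ} (X : Fin r → GVar W Γ) (E : Fin r → Type) [∀ i, Field (E i)]
    [∀ i, NumberField (E i)] [∀ i, IsCMField (E i)] (α : ∀ i, E i) (h b n : Fin r → ℕ)
    (hX : ∀ i, HasK3Reduction χ F p m (X i) (α i) (h i) (b i) (n i)) (G : Set ℚ)
    (hA : Admissible G h b (fun i => Module.finrank ℚ (E i) / 2)
      (fun i => localDegree p (α i)) n)
    (Z : GVar W Γ) (U : AnyVar W Γ) (hU : SlopesTimes F p m G Z U) (S : Finset (Fin r))
    (Y : GVar W Γ) (hY : Tower X Z S Y) :
    StrongTate χ Y U ↔ StrongTate χ Z U :=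
  tower_strong hm hχ hX hA hU hY

end Pool.Agent.Results.MP_223b32_ag.DifferentHeights
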