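import Mathlib
import Pool.Agent.N534.HC.Tate

/-!
# The limit law of the L-functions of `H^{2j}` of products of random curves over a number field

`K` is any number field, `C_{i,c} : y² = F_i(c_i; x)`, `i ∈ R`, `|R| = r`, are hyperelliptic curves over `K` with integer parameters `c_i`, independent for
the different `i`: `F_i(c; x)` is a polynomial in `x` whose coefficients are polynomials over `𝓞 K` in the parameters, a scaling
`c_l → G^{wt_l} c_l` twists the curve: `F_i(G c; G^a x) = G^e F_i(c; x)` with `e` odd, and some member is nonsingular and of full degree. Examples: all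
polynomials of degree `d` and all linear systems of polynomials (`wt = 1`, `a = 0`, `e = 1`), all curves `y² = x³ + A x + B` (weights `2`, `3`, `a = 1`,
`e = 3`), with parameters in `ℤ` or in `𝓞 K`, written in an integral basis.

`X_c = ∏_{i ∈ R} C_{i,c}`. The classes of the products of `j` points and `r - j` curves give rank `C(r, j)` in `A^j(X_c)`; if there are no nonzero homomorphisms between
the Jacobians, their rings of endomorphisms are `ℤ`, and the Galois representations are generic, this is the rank of `A^j(X_c)`. So for almost all `c` the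
problem predicts that `L(s)` of `H^{2j}(X_c)` has a pole of order exactly `C(r, j)` at `s₀ = j + 1` (`dim_a(K) = 1`), i.e. that the quotient of
`L(s)` by `ζ_K(s - j)^{C(r, j)}` is neither zero nor infinite at `s₀`. (The Euler factors at the places above the primes `p` with a bad place
above `p` are omitted in both functions.)

The theorem: for finitely many points `s_k` with `Re s_k ≥ s₀` (`s₀` and the line `Re s = s₀` allowed) and any points `σ_k(H) → s_k` with
`(Re σ_k(H) - s₀) log H → ∞`, the joint distribution of the numbers `L(σ_k(H)) / ζ_K(σ_k(H) - j)^{C(r, j)}`, over the members `c` with all parameters of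
absolute value at most `H`, converges to the joint distribution of the values `exp (Z_k)` of the random Euler product at the points
`s_k`: the residue classes of `c` modulo the primes are independent and uniform, and `Z_k` is the limit in the mean of the logarithms of the partial
products over the places above the primes `p ≤ z`. In particular there is no mass at `0` and infinity: the quotient of `L(s)` by
`ζ_K(s - j)^{C(r, j)}`, seen at the distances `A/log H`, `A → ∞`, from `s₀`, has a limit law on the nonzero numbers.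
-/

set_option autoImplicit false

open NumberField IsDedekindDomain Polynomial MeasureTheory Filter Topology

namespace Pool.Agent.Results.MP_223b32_ag.RandomProductsLimitLaw

section
variable {K : Type} [Field K] [NumberField K]

/-- Number of affine points of `y² = g(x)` with coordinates in the extension of degree `m` of the finite field `k`, i.e. the field of the
elements of the algebraic closure of `k` which are fixed by the `m`-th power of the Frobenius of `k`. -/
noncomputable def affineCount (k : Type) [Field k] (g : k[X]) (m : ℕ) : ℕ :=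
  Nat.card {P : AlgebraicClosure k × AlgebraicClosure k //
    P.1 ^ (Nat.card k ^ m) = P.1 ∧ P.2 ^ (Nat.card k ^ m) = P.2 ∧ P.2 ^ 2 = aeval P.1 g}

/-- Number of points at infinity of the smooth projective curve `y² = g(x)` over the extension of degree `m` of `k`: one if the degree of `g`
is odd, and otherwise the number of square roots of the leading coefficient. -/
noncomputable def infinityCount (k : Type) [Field k] (g : k[X]) (m : ℕ) : ℕ :=
  if Odd g.natDegree then 1 else
    Nat.card {y : AlgebraicClosure k // y ^ (Nat.card k ^ m) = y ∧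
      y ^ 2 = algebraMap k (AlgebraicClosure k) g.leadingCoeff}

/-- Trace of the `m`-th power of the Frobenius at `v` on `H¹` of the curve `y² = f(x)`: `q^m + 1` minus the number of its points over the
field with `q^m` elements, `q = N v`. -/
noncomputable def trace (f : (𝓞 K)[X]) (v : HeightOneSpectrum (𝓞 K)) (m : ℕ) : ℤ :=
  haveI : v.asIdeal.IsMaximal := v.isMaximal
  letI : Field (𝓞 K ⧸ v.asIdeal) := Ideal.Quotient.field v.asIdeal
  ((Ideal.absNorm v.asIdeal : ℕ) : ℤ) ^ m + 1 -
    (affineCount (𝓞 K ⧸ v.asIdeal) (f.map (Ideal.Quotient.mk v.asIdeal)) m +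
      infinityCount (𝓞 K ⧸ v.asIdeal) (f.map (Ideal.Quotient.mk v.asIdeal)) m)

/-- Good reduction: `v` does not divide `2` and the reduction of `f` is separable, of degree `d`. -/
def Good (f : (𝓞 K)[X]) (d : ℕ) (v : HeightOneSpectrum (𝓞 K)) : Prop :=
  (2 : 𝓞 K) ∉ v.asIdeal ∧ (f.map (Ideal.Quotient.mk v.asIdeal)).natDegree = d ∧
    (f.map (Ideal.Quotient.mk v.asIdeal)).Separable

/-- The trace of the `k`-th power of the Frobenius at `v` on `H^{2j}(∏_i C_i)`, `C_i : y² = f_i(x)`, by Künneth's formula: the coefficient of `t^{2j}`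
in `∏_i (1 + tr(A_i^k) t + N v^k t²)`. -/
noncomputable def traceProduct {R : Type} [Fintype R] (j : ℕ) (f : R → (𝓞 K)[X]) (v : HeightOneSpectrum (𝓞 K)) (k : ℕ) : ℝ :=
  PowerSeries.coeff (2 * j) (∏ i, (1 + PowerSeries.C ((trace (f i) v k : ℤ) : ℝ) * PowerSeries.X +
    PowerSeries.C (((Ideal.absNorm v.asIdeal : ℕ) : ℝ) ^ k) * PowerSeries.X ^ 2 : PowerSeries ℝ))

/-- The trace on `H^{2j}` minus the trace `C(r, j) N v^{jk}` on the classes of the products of points and curves. -/
noncomputable def quotientTrace {R : Type} [Fintype R] (j : ℕ) (f : R → (𝓞 K)[X]) (v : HeightOneSpectrum (𝓞 K)) (k : ℕ) : ℝ :=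
  traceProduct j f v k - ((Fintype.card R).choose j : ℝ) * (((Ideal.absNorm v.asIdeal : ℕ) : ℝ) ^ k) ^ j

open Classical in
/-- The sum over the places `v` above `p`, of residue degree `f_v` dividing `k`, of `f_v` times the local trace of the power `k / f_v`. -/
noncomputable def frobTrace (t : HeightOneSpectrum (𝓞 K) → ℕ → ℝ) (p k : ℕ) : ℝ :=
  ∑ᶠ v : {v : HeightOneSpectrum (𝓞 K) // (p : 𝓞 K) ∈ v.asIdeal},
    if Nat.log p (Ideal.absNorm v.1.asIdeal) ∣ k then
      (Nat.log p (Ideal.absNorm v.1.asIdeal) : ℝ) * t v.1 (k / Nat.log p (Ideal.absNorm v.1.asIdeal))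
    else 0

open Classical in
/-- The logarithm `∑ (frobTrace t p k) p^{-ks} / k` of the product of the Euler factors at the places above `p`, for local traces `t`; it is
omitted if one of these places is not good. -/
noncomputable def logFactor (t : HeightOneSpectrum (𝓞 K) → ℕ → ℝ) (G : HeightOneSpectrum (𝓞 K) → Prop)
    (s : ℂ) (p : ℕ) : ℂ :=
  if ∃ v : HeightOneSpectrum (𝓞 K), (p : 𝓞 K) ∈ v.asIdeal ∧ ¬ G v then 0 else
    ∑' k : ℕ, (frobTrace t p (k + 1) : ℂ) / ((k : ℂ) + 1) * (p : ℂ) ^ (-(((k : ℂ) + 1) * s))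

/-- The L-function: the product of the Euler factors. -/
noncomputable def LSeries (t : HeightOneSpectrum (𝓞 K) → ℕ → ℝ) (G : HeightOneSpectrum (𝓞 K) → Prop) (s : ℂ) : ℂ :=
  ∏' p : Nat.Primes, Complex.exp (logFactor t G s (p : ℕ))

variable {J : Type} [Fintype J] [DecidableEq J]

/-- The member `F(c; x)` of the family. -/
noncomputable def member (F : (MvPolynomial J (𝓞 K))[X]) (c : J → ℤ) : (𝓞 K)[X] :=
  F.map (MvPolynomial.eval (fun j => ((c j : ℤ) : 𝓞 K)))

/-- `L(s) / ζ_K(s - j)^{C(r, j)}` for the member `c`. -/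
noncomputable def quotient {R : Type} [Fintype R] (j : ℕ) (F : R → (MvPolynomial J (𝓞 K))[X]) (c : R × J → ℤ) (s : ℂ) : ℂ :=
  LSeries (quotientTrace j (fun i => member (F i) (fun l => c (i, l))))
    (fun v => ∀ i, Good (member (F i) (fun l => c (i, l))) (F i).natDegree v) s

/-- The integer vectors with coordinates of absolute value at most `H`. -/
noncomputable def box (ι : Type) [Fintype ι] [DecidableEq ι] (H : ℕ) : Finset (ι → ℤ) :=
  Fintype.piFinset fun _ => Finset.Icc (-(H : ℤ)) H

/-- Vectors of residue classes, one for each prime. -/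
abbrev Residues (ι : Type) : Type := ∀ p : Nat.Primes, ι → ZMod (p : ℕ)

/-- The residue classes are independent and uniform. -/
noncomputable def uniform (ι : Type) [Fintype ι] [DecidableEq ι] : MeasureTheory.Measure (Residues ι) :=
  MeasureTheory.Measure.infinitePi fun p => (PMF.uniformOfFintype (ι → ZMod (p : ℕ))).toMeasure

/-- An integer vector in the residue class modulo `p`. -/
def lift {ι : Type} (x : Residues ι) (p : Nat.Primes) : ι → ℤ := fun i => ((x p i).val : ℤ)

/-- The prime numbers up to `z`. -/
def primesUpTo (z : ℕ) : Finset Nat.Primes := (Finset.range (z + 1)).subtype Nat.Prime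

/-- The logarithm of the random Euler product over the primes `p ≤ z`: the Euler factor at `p` is that of the member given by the
residue classes modulo `p`. -/
noncomputable def randomLog {ι : Type} (t : (ι → ℤ) → HeightOneSpectrum (𝓞 K) → ℕ → ℝ)
    (G : (ι → ℤ) → HeightOneSpectrum (𝓞 K) → Prop) (z : ℕ) (s : ℂ) (x : Residues ι) : ℂ :=
  ∑ p ∈ primesUpTo z, logFactor (t (lift x p)) (G (lift x p)) s (p : ℕ)

/-- **The limit law of the L-functions of `H^{2j}` of products of random curves over a number field, up to the line `Re s = j + 1`.** -/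
theorem result {R : Type} [Fintype R] [DecidableEq R] [Nonempty R] (F : R → (MvPolynomial J (𝓞 K))[X])
    (hF : ∀ i, 1 ≤ (F i).natDegree)
    (hc : ∀ i, ∃ c : J → ℤ, (member (F i) c).natDegree = (F i).natDegree ∧
      ((member (F i) c).map (algebraMap (𝓞 K) K)).Separable)
    (wt : R → J → ℕ) (a e : R → ℕ) (he : ∀ i, Odd (e i))
    (hs : ∀ (i : R) (G : ℤ) (c : J → ℤ), (member (F i) (fun l => G ^ wt i l * c l)).comp (C ((G : 𝓞 K) ^ a i) * X) =
      C ((G : 𝓞 K) ^ e i) * member (F i) c)
    (j : ℕ) {κ : Type} [Fintype κ] (s : κ → ℂ) (hsk : ∀ k, (j : ℝ) + 1 ≤ (s k).re) :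
    ∃ Z : κ → Residues (R × J) → ℂ, (∀ k, Measurable (Z k)) ∧ (∀ k, Integrable (Z k) (uniform (R × J))) ∧
      (∀ k, Tendsto (fun z : ℕ => ∫ x, ‖randomLog (fun c => quotientTrace j (fun i => member (F i) (fun l => c (i, l))))
        (fun (c : R × J → ℤ) (v : HeightOneSpectrum (𝓞 K)) => ∀ i, Good (member (F i) (fun l => c (i, l))) (F i).natDegree v)
          z (s k) x - Z k x‖ ∂(uniform (R × J))) atTop (𝓝 0)) ∧
      ∀ σ : ℕ → κ → ℂ, (∀ k, Tendsto (fun H => σ H k) atTop (𝓝 (s k))) →
        (∀ k, Tendsto (fun H : ℕ => ((σ H k).re - (1 + (j : ℝ))) * Real.log H) atTop atTop) →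
        (∀ g : (κ → ℂ) → ℝ, Continuous g → (∃ C : ℝ, ∀ y, |g y| ≤ C) →
          Tendsto (fun H : ℕ => (∑ c ∈ box (R × J) H, g (fun k => quotient j F c (σ H k))) / (box (R × J) H).card)
            atTop (𝓝 (∫ x, g (fun k => Complex.exp (Z k x)) ∂(uniform (R × J))))) ∧
        (∀ E : Set (κ → ℂ), MeasurableSet E →
          uniform (R × J) {x | (fun k => Complex.exp (Z k x)) ∈ frontier E} = 0 →
          Tendsto (fun H : ℕ => (open Classical in ((box (R × J) H).filter
            (fun c => (fun k => quotient j F c (σ H k)) ∈ E)).card : ℝ) / (box (R × J) H).card) atTop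
            (𝓝 ((uniform (R × J)).real {x | (fun k => Complex.exp (Z k x)) ∈ E}))) := by
  have hAdm := Pool.Agent.N534.HC.Tate.adm_ind F (fun i => ⟨hF i, hc i⟩)
  have hodd := Pool.Agent.N534.HC.Tate.oddMon_ind F (wt := wt) (a := a) (e := e) hs he (2 * j)
  obtain ⟨D, hD⟩ := Pool.Agent.N534.HC.powH (Pool.Agent.N534.HC.Tate.Tc_hasWt (R := R) (2 * j)) hAdm hodd
  have hcmp := Pool.Agent.N534.HC.Inst.cmpH (2 * j) (Pool.Agent.N534.HC.Tate.Tc R (2 * j)) (Pool.Agent.N534.HC.Tate.ind F)
  have hmem : ∀ (c : R × J → ℤ) (i : R), Pool.Agent.N534.HC.mem (Pool.Agent.N534.HC.Tate.ind F i) c =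
      member (F i) (fun l => c (i, l)) := fun c i => Pool.Agent.N534.HC.Tate.mem_ind F i c
  have ht : (fun c : R × J → ℤ => quotientTrace j (fun i => member (F i) (fun l => c (i, l)))) =
      Pool.Agent.N534.HC.Inst.tH (Pool.Agent.N534.HC.Tate.Tc R (2 * j)) (Pool.Agent.N534.HC.Tate.ind F) := by
    funext c v k
    unfold quotientTrace traceProduct Pool.Agent.N534.HC.Inst.tH Pool.Agent.N534.HC.chv
    rw [Pool.Agent.N534.HC.Tate.Tc_eval, if_pos (even_two_mul j), Nat.mul_div_cancel_left j (by norm_num : 0 < 2)]
    have h1 : ∀ i : R, Pool.Agent.N534.HC.vals v (fun i => Pool.Agent.N534.HC.rmem (Pool.Agent.N534.HC.Tate.ind F i) v c) k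
        (some (i, 0)) = ((trace (member (F i) (fun l => c (i, l))) v k : ℤ) : ℝ) := by
      intro i
      have h2 := Pool.Agent.N534.HC.Inst.trace_eq (member (F i) (fun l => c (i, l))) v k
      change ((Pool.Agent.N534.HC.trv v (Pool.Agent.N534.HC.rmem (Pool.Agent.N534.HC.Tate.ind F i) v c)
        (k * (0 + 1)) : ℤ) : ℝ) = ((Pool.Agent.N534.HC.Inst.trace (member (F i) (fun l => c (i, l))) v k : ℤ) : ℝ)
      rw [h2, zero_add, mul_one]
      unfold Pool.Agent.N534.HC.rmem
      rw [hmem]
    simp only [h1]
    rfl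
  have hg : (fun (c : R × J → ℤ) (v : HeightOneSpectrum (𝓞 K)) => ∀ i, Good (member (F i) (fun l => c (i, l))) (F i).natDegree v) =
      Pool.Agent.N534.HC.Inst.gH (Pool.Agent.N534.HC.Tate.ind F) := by
    funext c v
    apply propext
    unfold Pool.Agent.N534.HC.Inst.gH
    refine forall_congr' fun i => ?_
    unfold Pool.Agent.N534.HC.Gdv Good Pool.Agent.N534.HC.rmem
    rw [hmem, Pool.Agent.N534.HC.Tate.deg_ind]
  have hQ : quotient j F = fun (c : R × J → ℤ) (s : ℂ) => Pool.Agent.N534.HC.St.LSeries
      (Pool.Agent.N534.HC.Inst.tH (Pool.Agent.N534.HC.Tate.Tc R (2 * j)) (Pool.Agent.N534.HC.Tate.ind F) c)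
      (Pool.Agent.N534.HC.Inst.gH (Pool.Agent.N534.HC.Tate.ind F) c) s := by
    funext c s
    have h1 := congrFun ht c
    have h2 := congrFun hg c
    unfold quotient
    rw [← h1, ← h2]
    rfl
  have h1 := Pool.Agent.N534.HC.St.lawC hcmp hD s (fun k => by
    have := hsk k
    push_cast
    linarith)
  have h32 : ((2 * j : ℕ) : ℝ) / 2 = j := by push_cast; ring
  rw [h32] at h1
  rw [hQ, ht, hg]
  exact h1

end

end Pool.Agent.Results.MP_223b32_ag.RandomProductsLimitLaw
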