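import Mathlib
import Pool.Agent.N666.TM.St
import Pool.Agent.N534.HC.Tate

/-!
# The analytic Tate conjecture on the average along THIN sequences of products of curves over an arbitrary number field

`K` is any number field. `X_c = ∏_{i ∈ R} C_i`, `C_i : y² = F_i(c_i; x)`, is the product of `r = |R|` hyperelliptic (or elliptic) curves; the
`F_i` are polynomials in `x` and in integer parameters `c_{i,l}`, with coefficients in `𝓞_K`, independent parameters for different `i`,
`F_i(G c; G^{a_i} x) = G^{e_i} F_i(c; x)`, `(G c)_l = G^{wt_l} c_l`, `e_i` odd, and some member of the family is separable of full degree (the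
families of `MP_223b32_ag.RandomProductsPole` and `RandomProductsLimitLaw` of helper534: all curves of genus `g`, all linear systems, all
elliptic curves `y² = x³ + a x + b`, the quadratic twists of one curve, ...).

The parameters are thin: `c(n)_{i,l} = ⌊P_{i,l}(n)⌋`, where the `P_{i,l}` are generalised polynomials (finite sums of real powers with real
coefficients) whose leading exponents are positive, not integers and different from each other, with positive leading coefficients; `n` runs
through the integers, or through the primes, of `(N, 2N]`. Example: the products of the two elliptic curves `y² = x³ + ⌊n^√2⌋ x + ⌊n^(5/2)⌋`,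
`y² = x³ + ⌊n^π⌋ x + ⌊n^(7/2)⌋`. Only `N` of the members of the box of this size occur.

Let `L(s)` be the L-function of `H^{2j}(X_c)` and `Q(s) = L(s) / ζ_K(s - j)^{C(r, j)}`, both without the factors at the places above the `p` with a
bad place above `p`. The number `C(r, j)` is the rank of the group of the classes of the products of points and curves, the predicted order
of the pole of `L(s)` at `s₀ = j + 1` for the general member.

Theorem, for the integers and for the primes of `(N, 2N]`:
(1) the mean over `n` of the square of the supremum of `|log Q(s)|` over the rectangle `s₀ + 1/log N ≤ Re s ≤ s₀ + 1`, `|Im s| ≤ T` is at most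
`C (1 + T)`, `C` free of `N ≥ N₀` and `T`; so `|log Q| ≤ (C (1 + T) / δ)^(1/2)` in the rectangle for all `n` outside a proportion `δ`: down to the
distance `1 / log N` from `s₀` the L-function has a pole of the order `C(r, j)`;
(2) for points `s_k` with `Re s_k ≥ s₀` (`s₀` and the line `Re s = s₀` allowed) and `σ_k(N) → s_k` with `(Re σ_k(N) - s₀) log N → ∞` the joint
distribution of the `Q(σ_k(N))` for `c = c(n)` converges to that of the values at `s_k` of the random Euler product over `K` (independent uniform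
residue classes modulo the primes), which is almost surely neither `0` nor infinite.
-/

set_option autoImplicit false

open NumberField IsDedekindDomain Polynomial MeasureTheory Filter Topology

namespace Pool.Agent.Results.MP_223b32_ag.ThinProducts

section
variable {K : Type} [Field K] [NumberField K]

/-- Number of affine points of `y² = g(x)` with coordinates in the extension of degree `m` of the finite field `k`, i.e. the field of the
elements of the algebraic closure of `k` which are fixed by the `m`-th power of the Frobenius of `k`. -/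
noncomputable def affineCount (k : Type) [Field k] (g : k[X]) (m : ℕ) : ℕ :=
  Nat.card {P : AlgebraicClosure k × AlgebraicClosure k //
    P.1 ^ (Nat.card k ^ m) = P.1 ∧ P.2 ^ (Nat.card k ^ m) = P.2 ∧ P.2 ^ 2 = aeval P.1 g}

/-- Number of points at infinity of the smooth projective curve `y² = g(x)` over the extension of degree `m` of `k`: one if the degree of `g`
is odd, and otherwise the number of square roots of the leading coefficient. -/
noncomputable def infinityCount (k : Type) [Field k] (g : k[X]) (m : ℕ) : ℕ :=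
  if Odd g.natDegree then 1 else
    Nat.card {y : AlgebraicClosure k // y ^ (Nat.card k ^ m) = y ∧
      y ^ 2 = algebraMap k (AlgebraicClosure k) g.leadingCoeff}

/-- Trace of the `m`-th power of the Frobenius at `v` on `H¹` of the curve `y² = f(x)`: `q^m + 1` minus the number of its points over the
field with `q^m` elements, `q = N v`. -/
noncomputable def trace (f : (𝓞 K)[X]) (v : HeightOneSpectrum (𝓞 K)) (m : ℕ) : ℤ :=
  haveI : v.asIdeal.IsMaximal := v.isMaximal
  letI : Field (𝓞 K ⧸ v.asIdeal) := Ideal.Quotient.field v.asIdeal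
  ((Ideal.absNorm v.asIdeal : ℕ) : ℤ) ^ m + 1 -
    (affineCount (𝓞 K ⧸ v.asIdeal) (f.map (Ideal.Quotient.mk v.asIdeal)) m +
      infinityCount (𝓞 K ⧸ v.asIdeal) (f.map (Ideal.Quotient.mk v.asIdeal)) m)

/-- Good reduction: `v` does not divide `2` and the reduction of `f` is separable, of degree `d`. -/
def Good (f : (𝓞 K)[X]) (d : ℕ) (v : HeightOneSpectrum (𝓞 K)) : Prop :=
  (2 : 𝓞 K) ∉ v.asIdeal ∧ (f.map (Ideal.Quotient.mk v.asIdeal)).natDegree = d ∧
    (f.map (Ideal.Quotient.mk v.asIdeal)).Separable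

/-- The trace of the `k`-th power of the Frobenius at `v` on `H^{2j}(∏_i C_i)`, `C_i : y² = f_i(x)`, by Künneth's formula: the coefficient of `t^{2j}`
in `∏_i (1 + tr(A_i^k) t + N v^k t²)`. -/
noncomputable def traceProduct {R : Type} [Fintype R] (j : ℕ) (f : R → (𝓞 K)[X]) (v : HeightOneSpectrum (𝓞 K)) (k : ℕ) : ℝ :=
  PowerSeries.coeff (2 * j) (∏ i, (1 + PowerSeries.C ((trace (f i) v k : ℤ) : ℝ) * PowerSeries.X +
    PowerSeries.C (((Ideal.absNorm v.asIdeal : ℕ) : ℝ) ^ k) * PowerSeries.X ^ 2 : PowerSeries ℝ))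

/-- The trace on `H^{2j}` minus the trace `C(r, j) N v^{jk}` on the classes of the products of points and curves. -/
noncomputable def quotientTrace {R : Type} [Fintype R] (j : ℕ) (f : R → (𝓞 K)[X]) (v : HeightOneSpectrum (𝓞 K)) (k : ℕ) : ℝ :=
  traceProduct j f v k - ((Fintype.card R).choose j : ℝ) * (((Ideal.absNorm v.asIdeal : ℕ) : ℝ) ^ k) ^ j

open Classical in
/-- The sum over the places `v` above `p`, of residue degree `f_v` dividing `k`, of `f_v` times the local trace of the power `k / f_v`. -/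
noncomputable def frobTrace (t : HeightOneSpectrum (𝓞 K) → ℕ → ℝ) (p k : ℕ) : ℝ :=
  ∑ᶠ v : {v : HeightOneSpectrum (𝓞 K) // (p : 𝓞 K) ∈ v.asIdeal},
    if Nat.log p (Ideal.absNorm v.1.asIdeal) ∣ k then
      (Nat.log p (Ideal.absNorm v.1.asIdeal) : ℝ) * t v.1 (k / Nat.log p (Ideal.absNorm v.1.asIdeal))
    else 0

open Classical in
/-- The logarithm `∑ (frobTrace t p k) p^{-ks} / k` of the product of the Euler factors at the places above `p`, for local traces `t`; it is
omitted if one of these places is not good. -/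
noncomputable def logFactor (t : HeightOneSpectrum (𝓞 K) → ℕ → ℝ) (G : HeightOneSpectrum (𝓞 K) → Prop)
    (s : ℂ) (p : ℕ) : ℂ :=
  if ∃ v : HeightOneSpectrum (𝓞 K), (p : 𝓞 K) ∈ v.asIdeal ∧ ¬ G v then 0 else
    ∑' k : ℕ, (frobTrace t p (k + 1) : ℂ) / ((k : ℂ) + 1) * (p : ℂ) ^ (-(((k : ℂ) + 1) * s))

/-- The logarithm of the L-function. -/
noncomputable def logL (t : HeightOneSpectrum (𝓞 K) → ℕ → ℝ) (G : HeightOneSpectrum (𝓞 K) → Prop) (s : ℂ) : ℂ :=
  ∑' p : Nat.Primes, logFactor t G s (p : ℕ)

/-- The L-function: the product of the Euler factors. -/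
noncomputable def LSeries (t : HeightOneSpectrum (𝓞 K) → ℕ → ℝ) (G : HeightOneSpectrum (𝓞 K) → Prop) (s : ℂ) : ℂ :=
  ∏' p : Nat.Primes, Complex.exp (logFactor t G s (p : ℕ))

variable {J : Type} [Fintype J] [DecidableEq J]

/-- The member `F(c; x)` of the family. -/
noncomputable def member (F : (MvPolynomial J (𝓞 K))[X]) (c : J → ℤ) : (𝓞 K)[X] :=
  F.map (MvPolynomial.eval (fun j => ((c j : ℤ) : 𝓞 K)))

/-- `log (L(s) / ζ_K(s - j)^{C(r, j)})` for the member `c`. -/
noncomputable def logQuotient {R : Type} [Fintype R] (j : ℕ) (F : R → (MvPolynomial J (𝓞 K))[X]) (c : R × J → ℤ) (s : ℂ) : ℂ :=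
  logL (quotientTrace j (fun i => member (F i) (fun l => c (i, l))))
    (fun v => ∀ i, Good (member (F i) (fun l => c (i, l))) (F i).natDegree v) s

/-- `L(s) / ζ_K(s - j)^{C(r, j)}` for the member `c`. -/
noncomputable def quotient {R : Type} [Fintype R] (j : ℕ) (F : R → (MvPolynomial J (𝓞 K))[X]) (c : R × J → ℤ) (s : ℂ) : ℂ :=
  LSeries (quotientTrace j (fun i => member (F i) (fun l => c (i, l))))
    (fun v => ∀ i, Good (member (F i) (fun l => c (i, l))) (F i).natDegree v) s

/-- Vectors of residue classes, one for each prime. -/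
abbrev Residues (ι : Type) : Type := ∀ p : Nat.Primes, ι → ZMod (p : ℕ)

/-- The residue classes are independent and uniform. -/
noncomputable def uniform (ι : Type) [Fintype ι] [DecidableEq ι] : MeasureTheory.Measure (Residues ι) :=
  MeasureTheory.Measure.infinitePi fun p => (PMF.uniformOfFintype (ι → ZMod (p : ℕ))).toMeasure

/-- An integer vector in the residue class modulo `p`. -/
def lift {ι : Type} (x : Residues ι) (p : Nat.Primes) : ι → ℤ := fun i => ((x p i).val : ℤ)

/-- The prime numbers up to `z`. -/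
def primesUpTo (z : ℕ) : Finset Nat.Primes := (Finset.range (z + 1)).subtype Nat.Prime

/-- The logarithm of the random Euler product over the primes `p ≤ z`: the Euler factor at `p` is that of the member given by the
residue classes modulo `p`. -/
noncomputable def randomLog {ι : Type} (t : (ι → ℤ) → HeightOneSpectrum (𝓞 K) → ℕ → ℝ)
    (G : (ι → ℤ) → HeightOneSpectrum (𝓞 K) → Prop) (z : ℕ) (s : ℂ) (x : Residues ι) : ℂ :=
  ∑ p ∈ primesUpTo z, logFactor (t (lift x p)) (G (lift x p)) s (p : ℕ)

/-- The rectangle `j + 1 + 1/log N ≤ Re s ≤ j + 2`, `|Im s| ≤ T`. -/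
def rectangle (j N : ℕ) (T : ℝ) : Set ℂ :=
  {s | (j : ℝ) + 1 + 1 / Real.log N ≤ s.re ∧ s.re ≤ j + 2 ∧ |s.im| ≤ T}

/-- `c` is the largest exponent of the generalised polynomial `∑ a_x t ^ x`; it is positive and not an
integer and has a positive coefficient. -/
def Admissible (F : Finset ℝ) (a : ℝ → ℝ) (c : ℝ) : Prop :=
  c ∈ F ∧ (∀ x ∈ F, x ≤ c) ∧ 0 < c ∧ (∀ m : ℕ, c ≠ m) ∧ 0 < a c

/-- The integer parts of the values at `n` of the generalised polynomials `∑ a_x t ^ x`, `x ∈ F k`. -/
noncomputable def floors {J : Type} (F : J → Finset ℝ) (a : J → ℝ → ℝ) (n : ℕ) (k : J) : ℤ :=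
  ⌊∑ x ∈ F k, a k x * (n : ℝ) ^ x⌋

/-- The functions `L n`, `n ∈ S`, are bounded on the average in the region `R`. -/
def BoundedOn (L : ℕ → ℂ → ℂ) (S : Finset ℕ) (R : Set ℂ) (C : ℝ) : Prop :=
  (∀ S' ⊆ S, ∀ u : ℕ → ℂ, (∀ n ∈ S', u n ∈ R) → ∑ n ∈ S', ‖L n (u n)‖ ^ 2 ≤ C * S.card) ∧
  (∀ δ : ℝ, 0 < δ → ∃ X ⊆ S, (X.card : ℝ) ≤ δ * S.card ∧
    ∀ n ∈ S \ X, ∀ u ∈ R, ‖L n u‖ ≤ Real.sqrt (C / δ))

/-- The joint distribution of the values `X N n k` for `n ∈ S N` tends to that of the `exp (Z k)`. -/
def ConvergesTo {ι κ : Type} [Fintype ι] [DecidableEq ι] [Fintype κ] (S : ℕ → Finset ℕ) (X : ℕ → ℕ → κ → ℂ)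
    (Z : κ → Residues ι → ℂ) : Prop :=
  (∀ G : (κ → ℂ) → ℝ, Continuous G → (∃ C : ℝ, ∀ y, |G y| ≤ C) →
    Tendsto (fun N : ℕ => (∑ n ∈ S N, G (X N n)) / (S N).card) atTop
      (𝓝 (∫ x, G (fun k => Complex.exp (Z k x)) ∂(uniform ι)))) ∧
  (∀ E : Set (κ → ℂ), MeasurableSet E → uniform ι {x | (fun k => Complex.exp (Z k x)) ∈ frontier E} = 0 →
    Tendsto (fun N : ℕ => (open Classical in ((S N).filter (fun n => X N n ∈ E)).card : ℝ) / (S N).card) atTop
      (𝓝 ((uniform ι).real {x | (fun k => Complex.exp (Z k x)) ∈ E})))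

/-- **The L-functions of `H^{2j}` of the products of thin sequences of curves over a number field: (1) the supremum of the logarithm of
`L(s) / ζ_K(s - j)^{C(r, j)}` near the line `Re s = j + 1`, (2) the limit law up to this line.** -/
theorem result {R : Type} [Fintype R] [DecidableEq R] [Nonempty R] [Nonempty J] (F : R → (MvPolynomial J (𝓞 K))[X])
    (hF : ∀ i, 1 ≤ (F i).natDegree)
    (hc : ∀ i, ∃ c : J → ℤ, (member (F i) c).natDegree = (F i).natDegree ∧
      ((member (F i) c).map (algebraMap (𝓞 K) K)).Separable)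
    (wt : R → J → ℕ) (a e : R → ℕ) (he : ∀ i, Odd (e i))
    (hs : ∀ (i : R) (G : ℤ) (c : J → ℤ), (member (F i) (fun l => G ^ wt i l * c l)).comp (C ((G : 𝓞 K) ^ a i) * X) =
      C ((G : 𝓞 K) ^ e i) * member (F i) c)
    (j : ℕ) (P : R × J → Finset ℝ) (α : R × J → ℝ → ℝ) (γ : R × J → ℝ) (h : ∀ k, Admissible (P k) (α k) (γ k))
    (hγ : Function.Injective γ) :
    (∀ (c : R × J → ℤ) (s : ℂ), (j : ℝ) + 1 < s.re → quotient j F c s = Complex.exp (logQuotient j F c s)) ∧
    (∃ C : ℝ, 0 < C ∧ ∃ N₀ : ℕ, ∀ N : ℕ, N₀ ≤ N → ∀ T : ℝ, 0 ≤ T →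
      BoundedOn (fun n => logQuotient j F (floors P α n)) (Finset.Ioc N (2 * N)) (rectangle j N T) (C * (1 + T)) ∧
      BoundedOn (fun n => logQuotient j F (floors P α n)) ((Finset.Ioc N (2 * N)).filter Nat.Prime)
        (rectangle j N T) (C * (1 + T))) ∧
    ∀ {κ : Type} [Fintype κ] (s : κ → ℂ), (∀ k, (j : ℝ) + 1 ≤ (s k).re) →
      ∃ Z : κ → Residues (R × J) → ℂ, (∀ k, Measurable (Z k)) ∧ (∀ k, Integrable (Z k) (uniform (R × J))) ∧
        (∀ k, Tendsto (fun z : ℕ => ∫ x, ‖randomLog (fun c => quotientTrace j (fun i => member (F i) (fun l => c (i, l))))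
          (fun (c : R × J → ℤ) (v : HeightOneSpectrum (𝓞 K)) => ∀ i, Good (member (F i) (fun l => c (i, l))) (F i).natDegree v)
            z (s k) x - Z k x‖ ∂(uniform (R × J))) atTop (𝓝 0)) ∧
        ∀ σ : ℕ → κ → ℂ, (∀ k, Tendsto (fun N => σ N k) atTop (𝓝 (s k))) →
          (∀ k, Tendsto (fun N : ℕ => ((σ N k).re - ((j : ℝ) + 1)) * Real.log N) atTop atTop) →
          ConvergesTo (fun N => Finset.Ioc N (2 * N)) (fun N n k => quotient j F (floors P α n) (σ N k)) Z ∧
          ConvergesTo (fun N => (Finset.Ioc N (2 * N)).filter Nat.Prime)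
            (fun N n k => quotient j F (floors P α n) (σ N k)) Z := by
  have hAdm := Pool.Agent.N534.HC.Tate.adm_ind F (fun i => ⟨hF i, hc i⟩)
  have hodd := Pool.Agent.N534.HC.Tate.oddMon_ind F (wt := wt) (a := a) (e := e) hs he (2 * j)
  obtain ⟨D, hD⟩ := Pool.Agent.N534.HC.powH (Pool.Agent.N534.HC.Tate.Tc_hasWt (R := R) (2 * j)) hAdm hodd
  have hcmp := Pool.Agent.N534.HC.Inst.cmpH (2 * j) (Pool.Agent.N534.HC.Tate.Tc R (2 * j)) (Pool.Agent.N534.HC.Tate.ind F)
  have hmem : ∀ (c : R × J → ℤ) (i : R), Pool.Agent.N534.HC.mem (Pool.Agent.N534.HC.Tate.ind F i) c =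
      member (F i) (fun l => c (i, l)) := fun c i => Pool.Agent.N534.HC.Tate.mem_ind F i c
  have ht : (fun c : R × J → ℤ => quotientTrace j (fun i => member (F i) (fun l => c (i, l)))) =
      Pool.Agent.N534.HC.Inst.tH (Pool.Agent.N534.HC.Tate.Tc R (2 * j)) (Pool.Agent.N534.HC.Tate.ind F) := by
    funext c v k
    unfold quotientTrace traceProduct Pool.Agent.N534.HC.Inst.tH Pool.Agent.N534.HC.chv
    rw [Pool.Agent.N534.HC.Tate.Tc_eval, if_pos (even_two_mul j), Nat.mul_div_cancel_left j (by norm_num : 0 < 2)]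
    have h1 : ∀ i : R, Pool.Agent.N534.HC.vals v (fun i => Pool.Agent.N534.HC.rmem (Pool.Agent.N534.HC.Tate.ind F i) v c) k
        (some (i, 0)) = ((trace (member (F i) (fun l => c (i, l))) v k : ℤ) : ℝ) := by
      intro i
      have h2 := Pool.Agent.N534.HC.Inst.trace_eq (member (F i) (fun l => c (i, l))) v k
      change ((Pool.Agent.N534.HC.trv v (Pool.Agent.N534.HC.rmem (Pool.Agent.N534.HC.Tate.ind F i) v c)
        (k * (0 + 1)) : ℤ) : ℝ) = ((Pool.Agent.N534.HC.Inst.trace (member (F i) (fun l => c (i, l))) v k : ℤ) : ℝ)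
      rw [h2, zero_add, mul_one]
      unfold Pool.Agent.N534.HC.rmem
      rw [hmem]
    simp only [h1]
    rfl
  have hg : (fun (c : R × J → ℤ) (v : HeightOneSpectrum (𝓞 K)) => ∀ i, Good (member (F i) (fun l => c (i, l))) (F i).natDegree v) =
      Pool.Agent.N534.HC.Inst.gH (Pool.Agent.N534.HC.Tate.ind F) := by
    funext c v
    apply propext
    unfold Pool.Agent.N534.HC.Inst.gH
    refine forall_congr' fun i => ?_
    unfold Pool.Agent.N534.HC.Gdv Good Pool.Agent.N534.HC.rmem
    rw [hmem, Pool.Agent.N534.HC.Tate.deg_ind]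
  have hQ : quotient j F = fun (c : R × J → ℤ) (s : ℂ) => Pool.Agent.N534.HC.St.LSeries
      (Pool.Agent.N534.HC.Inst.tH (Pool.Agent.N534.HC.Tate.Tc R (2 * j)) (Pool.Agent.N534.HC.Tate.ind F) c)
      (Pool.Agent.N534.HC.Inst.gH (Pool.Agent.N534.HC.Tate.ind F) c) s := by
    funext c s
    have h1 := congrFun ht c
    have h2 := congrFun hg c
    unfold quotient
    rw [← h1, ← h2]
    rfl
  have hL : logQuotient j F = fun (c : R × J → ℤ) (s : ℂ) => Pool.Agent.N534.HC.St.logL
      (Pool.Agent.N534.HC.Inst.tH (Pool.Agent.N534.HC.Tate.Tc R (2 * j)) (Pool.Agent.N534.HC.Tate.ind F) c)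
      (Pool.Agent.N534.HC.Inst.gH (Pool.Agent.N534.HC.Tate.ind F) c) s := by
    funext c s
    have h1 := congrFun ht c
    have h2 := congrFun hg c
    unfold logQuotient
    rw [← h1, ← h2]
    rfl
  have main := Pool.Agent.N666.TM.St.thin_all hcmp hD h hγ
  have h32 : 1 + ((2 * j : ℕ) : ℝ) / 2 = (j : ℝ) + 1 := by push_cast; ring
  have hrect : ∀ (N : ℕ) (T : ℝ), Pool.Agent.N534.HC.St.rectangle (2 * j) N T = rectangle j N T := by
    intro N T
    unfold rectangle Pool.Agent.N534.HC.St.rectangle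
    push_cast
    have e1 : (1 : ℝ) + 2 * (j : ℝ) / 2 = j + 1 := by ring
    have e2 : (2 : ℝ) + 2 * (j : ℝ) / 2 = j + 2 := by ring
    rw [e1, e2]
  simp only [h32, hrect] at main
  rw [hQ, hL, ht, hg]
  exact main

end

end Pool.Agent.Results.MP_223b32_ag.ThinProducts
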