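import Pool.Agent.N842.TW.Zeta

/-!
# The poles of the L-functions of the even cohomology groups of products of Weil restrictions of Jacobians and arbitrary varieties

Let `K` be a number field and `ω_0, ..., ω_(g-1)` generators of its ring of integers as an abelian group, for instance an integral
basis.  We consider `N` hyperelliptic curves `C_c : Y ^ 2 = f_c(X)` over `K` (`c < N`) with monic polynomials `f_c` of odd degree `D`;
the coefficients of the `f_c` are linear combinations of the `ω_j` with integral coefficients which arise from arbitrary integers by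
changing a few digits.  Let `A` be the product over `c < N` of the Weil restrictions `Res_(K/ℚ) J(C_c)` of the Jacobians, an abelian variety
over `ℚ` of dimension `N [K : ℚ] (D - 1) / 2`, and `Z` an arbitrary smooth projective variety over `ℚ`.

For almost all such `A` the L-function of `H ^ (2 i)(A × Z)(i)` is compared, for `2 i ≤ D`, with the L-function of the part of the
cohomology which comes from the classes of the polarisations of the factors, that is, of the sum over `j ≤ i` of
`Sym ^ j (Ind_K^ℚ 1) ^ N ⊗ H ^ (2 (i - j))(Z)(i - j)`.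

For a prime number `p` and `k ≥ 1` the homomorphisms `φ : 𝓞 K → F_(p ^ k)` correspond, if `p` is unramified in `K`, to the embeddings of
`K` in `ℚ_p^(alg)` which are fixed by the `k`-th power of a Frobenius automorphism; their number is the trace of the `k`-th power
of a Frobenius automorphism at `p` on `Ind_K^ℚ 1`.
-/

set_option autoImplicit false

namespace Pool.Agent.Results.MP_223b32_ag.WeilRestrictions

open Finset NumberField
open Pool.Agent.N842.TW (sgn)

/-- The elements `∑ m_(i,j) ω_j` of `𝓞 K`. -/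
def coeff {R : Type} [CommRing R] {g D : ℕ} (ω : Fin g → R) (m : Fin (D * g) → ℕ) (i : Fin D) : R :=
  ∑ j, (m (finProdFinEquiv (i, j)) : R) * ω j

/-- The number of the solutions of `Y ^ 2 = X ^ D + u (D - 1) X ^ (D - 1) + ... + u 0` in the field `F`. -/
noncomputable def points (F : Type) [Field F] {D : ℕ} (u : Fin D → F) : ℕ :=
  Nat.card {P : F × F // P.2 ^ 2 = P.1 ^ D + ∑ i, u i * P.1 ^ (i : ℕ)}

/-- The characteristic of `F` is not `2` and the polynomial `X ^ D + u (D - 1) X ^ (D - 1) + ... + u 0` over `F` is separable, so that the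
curve `C : Y ^ 2 = X ^ D + u (D - 1) X ^ (D - 1) + ... + u 0` is smooth. -/
def Smooth (F : Type) [Field F] {D : ℕ} (u : Fin D → F) : Prop :=
  (2 : F) ≠ 0 ∧ (Polynomial.X ^ D + ∑ i, Polynomial.C (u i) * Polynomial.X ^ (i : ℕ)).Separable

open Classical in
/-- For a field `F` with `q` elements the number `(q + 1 - #C(F)) / q ^ (1 / 2)` (there is one point at infinity), that is, the trace of
the normalised Frobenius automorphism on `H ^ 1(C)`; `0` if the curve is not smooth. -/
noncomputable def a (F : Type) [Field F] {D : ℕ} (u : Fin D → F) : ℝ :=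
  if Smooth F u then ((Nat.card F : ℝ) + 1 - ((points F u : ℝ) + 1)) / Real.sqrt (Nat.card F) else 0

/-- The sum, over the homomorphisms `φ : 𝓞 K → F_(p ^ k)`, of the numbers `a` of the curves obtained from `Y ^ 2 = f(X)` by applying `φ`
to the coefficients `u` of `f`.  If `p` is unramified in `K` and the curve has smooth reductions at the prime ideals above `p`, then this
is the trace of the `k`-th power of the normalised Frobenius automorphism at `p` on `H ^ 1` of the Weil restriction from `K` to `ℚ` of its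
Jacobian. -/
noncomputable def trace {R : Type} [CommRing R] (k p : ℕ) [Fact p.Prime] {D : ℕ} (u : Fin D → R) : ℝ :=
  ∑ᶠ φ : R →+* GaloisField p k, a (GaloisField p k) (fun i => φ (u i))

/-- The coefficient of `T ^ n` in the power series `exp (∑ t_j T ^ j / j)` (the sum over `j ≥ 1`): if `t_j` is the trace of the
`j`-th power of an endomorphism of a vector space, then this is the trace of the endomorphism induced on the `n`-th symmetric power. -/
noncomputable def newton (t : ℕ → ℝ) : ℕ → ℝ
  | 0 => 1
  | n + 1 => (∑ j : Fin (n + 1), t (j + 1) * newton t (n - j)) / (n + 1)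

/-- The trace of the `k`-th power of the normalised Frobenius automorphism at `p` on `H ^ d(A)`, the `d`-th exterior power of the sum
of the groups `H ^ 1` of the `N` Weil restrictions; `u` are the coefficients of the `N` polynomials. -/
noncomputable def traceA {K : Type} [Field K] {N D : ℕ} (d k p : ℕ) [Fact p.Prime] (u : Fin (N * D) → 𝓞 K) : ℝ :=
  (-1) ^ d * newton (fun j => - ∑ c : Fin N, trace (j * k) p (fun i => u (finProdFinEquiv (c, i)))) d

/-- The trace of the `k`-th power of the normalised Frobenius automorphism at the prime number with the number `v` (where `p_0 = 2`,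
`p_1 = 3, ...`) on `H ^ (2 i)(A × Z)(i)`, if `z e p k` is its trace on `H ^ e(Z)`, by the formula of Künneth. -/
noncomputable def traceProduct {K : Type} [Field K] {N D : ℕ} (z : ℕ → ℕ → ℕ → ℝ) (u : Fin (N * D) → 𝓞 K) (i v k : ℕ) : ℝ :=
  ∑ e ∈ range (2 * i + 1), z e (Nat.nth Nat.Prime v) k * traceA (2 * i - e) k (Nat.nth Nat.Prime v) u

/-- The number of the homomorphisms from `𝓞 K` to the field with `p ^ k` elements: the trace of the `k`-th power of a Frobenius
automorphism at `p` on `Ind_K^ℚ 1`. -/
noncomputable def homs (K : Type) [Field K] (k p : ℕ) [Fact p.Prime] : ℕ := Nat.card (𝓞 K →+* GaloisField p k)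

/-- The trace of the `k`-th power of the normalised Frobenius automorphism at the prime number with the number `v` on the sum over
`j ≤ i` of `Sym ^ j ((Ind_K^ℚ 1) ^ N) ⊗ H ^ (2 (i - j))(Z)(i - j)`. -/
noncomputable def expected (K : Type) [Field K] (N : ℕ) (z : ℕ → ℕ → ℕ → ℝ) (i v k : ℕ) : ℝ :=
  ∑ j ∈ range (i + 1), z (2 * (i - j)) (Nat.nth Nat.Prime v) k *
    newton (fun t => (N : ℝ) * homs K (t * k) (Nat.nth Nat.Prime v)) j

/-- The traces of the powers of the Frobenius automorphisms on the cohomology groups `H ^ e(Z)` of a point `Z`. -/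
def point (e _p _k : ℕ) : ℝ := if e = 0 then 1 else 0

/-- The product over all prime numbers `p_v` of the Euler factors `exp (∑ b v k / (k p_v ^ (k s)))` (the sum over `k ≥ 1`). -/
noncomputable def L (b : ℕ → ℕ → ℝ) (s : ℝ) : ℝ :=
  Real.exp (∑' v : ℕ, ∑' k : ℕ, b v (k + 1) * ((Nat.nth Nat.Prime v : ℝ) ^ (-(((k : ℝ) + 1) * s)) / ((k : ℝ) + 1)))

/-- For all `i` with `2 i ≤ D` and all systems `z` of traces in `Z` there is a positive constant `Λ`, so that for all
`s > 1` with `M ≤ (s - 1) r_j` for all `j` and `(s - 1) log y ≤ 1 / M`: the L-function of `H ^ (2 i)(A × Z)(i)` at `s` differs from `Λ` times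
the L-function of the sum over `j ≤ i` of `Sym ^ j ((Ind_K^ℚ 1) ^ N) ⊗ H ^ (2 (i - j))(Z)(i - j)` at `s` at most by `ε` times the latter. -/
def Comparable {K : Type} [Field K] {N D d : ℕ} (ε M : ℝ) (y : ℕ) (r : Fin d → ℕ) (Z : Set (ℕ → ℕ → ℕ → ℝ))
    (u : Fin (N * D) → 𝓞 K) : Prop :=
  ∀ i : ℕ, 2 * i ≤ D → ∀ z ∈ Z, ∃ Λ : ℝ, 0 < Λ ∧ ∀ s : ℝ, 1 < s → (∀ j, M ≤ (s - 1) * r j) → M * ((s - 1) * Real.log y) ≤ 1 →
    |L (traceProduct z u i) s - Λ * L (expected K N z i) s| ≤ ε * (Λ * L (expected K N z i) s)

/-- The digit number `i` (counted from the right, beginning with `0`) of `n` in base `b`. -/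
def digit (b i n : ℕ) : ℕ := n / b ^ i % b

/-- The number which arises from the number `N` with at most `L` digits in base `b`, if for every `i ∈ S`
the digit number `i` is replaced by `f i`. -/
def change (b L N : ℕ) (f : ℕ → ℕ) (S : Finset ℕ) : ℕ :=
  ∑ i ∈ range L, (if i ∈ S then f i else digit b i N) * b ^ i

open Classical in
/-- The number of the choices of `r j` of `L j` positions for all `j` for which the tuple of the numbers obtained by
changing the digits of the `N j` at the chosen positions (according to `f j`) does not have the property `E`. -/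
noncomputable def exceptions {d : ℕ} (b : ℕ) (L r N : Fin d → ℕ) (f : Fin d → ℕ → ℕ) (E : (Fin d → ℕ) → Prop) : ℕ :=
  ((Fintype.piFinset (fun j => powersetCard (r j) (range (L j)))).filter
    (fun S => ¬ E (fun j => change b (L j) (N j) (f j) (S j)))).card

lemma exc_eq {d : ℕ} (b : ℕ) (L r N : Fin d → ℕ) (f : Fin d → ℕ → ℕ) (E : (Fin d → ℕ) → Prop) :
    exceptions b L r N f E = Pool.Agent.Y57.FD.exceptions b L r N f E := rfl

lemma a_eq (F : Type) [Field F] {D : ℕ} (u : Fin D → F) : a F u = Pool.Agent.N842.SQ.val F 2 u := by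
  classical
  unfold a Pool.Agent.N842.SQ.val
  by_cases h : Smooth F u
  · rw [if_pos h, if_pos (show Pool.Agent.N842.SQ.Smooth F 2 u from ⟨by exact_mod_cast h.1, h.2⟩)]
    congr 1
    show (Nat.card F : ℝ) + 1 - ((Pool.Agent.N842.SQ.points F 2 u : ℝ) + 1) = _
    ring
  · rw [if_neg h, if_neg (fun h2 : Pool.Agent.N842.SQ.Smooth F 2 u => h ⟨by exact_mod_cast h2.1, h2.2⟩)]

lemma trace_eq {K : Type} [Field K] (k p : ℕ) [Fact p.Prime] {D : ℕ} (u : Fin D → 𝓞 K) :
    trace k p u = Pool.Agent.N842.SQ.tr 2 k p u := by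
  unfold trace Pool.Agent.N842.SQ.tr
  simp only [a_eq]

lemma newton_eq (t : ℕ → ℝ) (n : ℕ) : newton t n = Pool.Agent.N842.TW.nw t n := by
  induction n using Nat.strong_induction_on with
  | _ n ih =>
    cases n with
    | zero => rw [newton, Pool.Agent.N842.TW.nw]
    | succ n =>
      rw [newton, Pool.Agent.N842.TW.nw]
      congr 1
      refine sum_congr rfl fun j _ => ?_
      rw [ih (n - j) (by omega)]

lemma traceA_eq {K : Type} [Field K] {N D : ℕ} (d k p : ℕ) [Fact p.Prime] (u : Fin (N * D) → 𝓞 K) :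
    traceA d k p u = (-1) ^ d * Pool.Agent.N842.TW.Ac d k p u := by
  unfold traceA Pool.Agent.N842.TW.Ac Pool.Agent.N842.TW.T1
  rw [newton_eq]
  simp only [trace_eq]

lemma traceProduct_eq {K : Type} [Field K] {N D : ℕ} (z : ℕ → ℕ → ℕ → ℝ) (u : Fin (N * D) → 𝓞 K) (i v k : ℕ) :
    traceProduct z u i v k = Pool.Agent.N842.TW.bV u (sgn z) i v k := by
  unfold traceProduct Pool.Agent.N842.TW.bV sgn
  refine sum_congr rfl fun e he => ?_
  rw [Finset.mem_range] at he
  rw [traceA_eq]
  have h1 : (-1 : ℝ) ^ (2 * i - e) = (-1) ^ e := by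
    have h2 : (-1 : ℝ) ^ (2 * i - e) * (-1) ^ e = 1 := by
      rw [← pow_add, Nat.sub_add_cancel (by omega), pow_mul, neg_one_sq, one_pow]
    have h3 : (-1 : ℝ) ^ e * (-1) ^ e = 1 := by
      rw [← pow_add, ← two_mul, pow_mul, neg_one_sq, one_pow]
    have h4 : (-1 : ℝ) ^ e ≠ 0 := pow_ne_zero _ (by norm_num)
    exact mul_right_cancel₀ h4 (h2.trans h3.symm)
  rw [h1]
  ring

lemma expected_eq (K : Type) [Field K] (N : ℕ) (z : ℕ → ℕ → ℕ → ℝ) (i v k : ℕ) :
    expected K N z i v k = Pool.Agent.N842.TW.bE K N (sgn z) i v k := by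
  unfold expected Pool.Agent.N842.TW.bE
  have h1 : ∀ e ∈ range (2 * i + 1), e ∉ (range (i + 1)).image (fun j => 2 * (i - j)) →
      sgn z e (Nat.nth Nat.Prime v) k * Pool.Agent.N842.TW.Ec K N (2 * i - e) k (Nat.nth Nat.Prime v) = 0 := by
    intro e he hn
    rw [Finset.mem_range] at he
    unfold Pool.Agent.N842.TW.Ec
    rw [if_neg, mul_zero]
    intro h
    apply hn
    obtain ⟨t, ht⟩ := h
    rw [Finset.mem_image]
    exact ⟨t, by rw [Finset.mem_range]; omega, by omega⟩
  have h2 : (range (i + 1)).image (fun j => 2 * (i - j)) ⊆ range (2 * i + 1) := by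
    intro e he
    rw [Finset.mem_image] at he
    obtain ⟨j, hj, rfl⟩ := he
    rw [Finset.mem_range] at hj ⊢
    omega
  rw [← sum_subset h2 h1, sum_image]
  · refine sum_congr rfl fun j hj => ?_
    rw [Finset.mem_range] at hj
    unfold sgn Pool.Agent.N842.TW.Ec
    have e1 : 2 * i - 2 * (i - j) = 2 * j := by omega
    rw [e1, if_pos (even_two_mul j), pow_mul, neg_one_sq, one_pow, one_mul, Nat.mul_div_cancel_left j (by norm_num), newton_eq]
    rfl
  · intro j hj j' hj' h
    simp only [Finset.coe_range, Set.mem_Iio] at hj hj'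
    simp only at h
    omega

lemma L_eq (b : ℕ → ℕ → ℝ) (s : ℝ) : L b s = Real.exp (∑' j : ℕ, Pool.Agent.N842.TW.dp b s j) := rfl

lemma expected_point (K : Type) [Field K] (N v k : ℕ) :
    expected K N point 1 v k = (N : ℝ) * Pool.Agent.N842.SQ.hm K (Pool.Agent.TH894.NF.pr v) k := by
  unfold expected
  rw [sum_range_succ, sum_range_succ, sum_range_zero, zero_add]
  have h0 : point (2 * (1 - 0)) (Nat.nth Nat.Prime v) k = 0 := rfl
  have h1 : point (2 * (1 - 1)) (Nat.nth Nat.Prime v) k = 1 := rfl
  rw [h0, h1, zero_mul, zero_add, one_mul, newton_eq]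
  have h2 := Pool.Agent.N842.TW.nw_succ (fun t => (N : ℝ) * homs K (t * k) (Nat.nth Nat.Prime v)) 0
  rw [sum_range_one, Pool.Agent.N842.TW.nw_zero, mul_one, Nat.cast_zero, zero_add, one_mul, zero_add, one_mul] at h2
  exact h2

lemma zeta_point (K : Type) [Field K] [NumberField K] (N : ℕ) {s : ℝ} (hs : 1 < s) :
    ((L (expected K N point 1) s : ℝ) : ℂ) = dedekindZeta K s ^ N := by
  have h1 : expected K N point 1 = fun v k => (N : ℝ) * Pool.Agent.N842.SQ.hm K (Pool.Agent.TH894.NF.pr v) k := by
    funext v k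
    exact expected_point K N v k
  rw [L_eq, h1, Pool.Agent.N842.TW.zeta_eq N hs, Pool.Agent.H921R2.TatePole.dedekindZeta_real, Complex.ofReal_pow]

/-- Let `K` be a number field and `ω_0, ..., ω_(g-1)` generators of the group `𝓞 K`, and let an odd number `D`, `N ≥ 1`, a base `b ≥ 2`,
`ε, ρ > 0` and integers `A, B ≥ 0` be given.

(1) For `i = 1` and a point `Z` the expected L-function is the `N`-th power of the Dedekind zeta function of `K`, which has a pole of
the order `N` at `s = 1`.

(2) There are `M > 0` and `y₀` such that for all integers `r j`, `L j` (`j < N D g`), `y` with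
`2 r j ≤ L j` and `y ≥ y₀` the following holds.

Let `0 ≤ N' j < b ^ L j` be arbitrary integers, prescribe for every position `i` a digit `f j i` different from the digit of
`N' j` in base `b`, and let a set `Z` of at most `y ^ B` systems of real numbers `z e p k` with `|z e p k| ≤ ρ` be given (for instance the
traces of the `k`-th powers of the normalised Frobenius automorphisms on the cohomology groups `H ^ e` of smooth projective varieties over
`ℚ`, the Betti numbers of which are at most `ρ`).  If one chooses `r j` of the `L j` positions and replaces the digits of `N' j` at these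
positions, then for all but at most a proportion `1 / y ^ A` of the choices the `N` curves `C_c : Y ^ 2 = f_c(X)` over `K` given
by the numbers `m j` obtained have the following property: for the product `A` of the Weil restrictions from `K` to `ℚ` of their
Jacobians, all `i` with `2 i ≤ D` and all `z ∈ Z` there is a positive constant `Λ`, so that the L-function of `H ^ (2 i)(A × Z)(i)`
is `Λ (1 + θ)`, `|θ| ≤ ε`, times the L-function of the sum over `j ≤ i` of
`Sym ^ j ((Ind_K^ℚ 1) ^ N) ⊗ H ^ (2 (i - j))(Z)(i - j)` for all `s > 1` with `M / r j ≤ s - 1 ≤ 1 / (M log y)`. -/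
theorem result (K : Type) [Field K] [NumberField K] (g D N b : ℕ) (ω : Fin g → 𝓞 K)
    (hω : Submodule.span ℤ (Set.range ω) = ⊤) (hD : Odd D) (hN : 1 ≤ N) (hb : 2 ≤ b)
    (ε : ℝ) (hε : 0 < ε) (ρ : ℝ) (hρ : 0 < ρ) (A B : ℕ) :
    (∀ s : ℝ, 1 < s → ((L (expected K N point 1) s : ℝ) : ℂ) = dedekindZeta K s ^ N) ∧
    ∃ M : ℝ, 0 < M ∧ ∃ y₀ : ℕ, ∀ (L r : Fin (N * D * g) → ℕ) (y : ℕ), (∀ j, 2 * r j ≤ L j) → y₀ ≤ y →
    ∀ N' : Fin (N * D * g) → ℕ, (∀ j, N' j < b ^ L j) →
    ∀ f : Fin (N * D * g) → ℕ → ℕ, (∀ j i, f j i < b ∧ f j i ≠ digit b i (N' j)) →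
    ∀ Z : Set (ℕ → ℕ → ℕ → ℝ), Z.Finite → Z.ncard ≤ y ^ B → (∀ z ∈ Z, ∀ e p k, |z e p k| ≤ ρ) →
      (exceptions b L r N' f (fun m => Comparable (K := K) (N := N) (D := D) ε M y r Z (coeff ω m)) : ℝ) ≤
        1 / (y : ℝ) ^ A * ∏ j, ((L j).choose (r j) : ℝ) := by
  classical
  refine ⟨fun s hs => zeta_point K N hs, ?_⟩
  have hg : 0 < g := by
    rcases Nat.eq_zero_or_pos g with h0 | h0
    · subst h0
      have h1 : (1 : 𝓞 K) ∈ Submodule.span ℤ (Set.range ω) := by
        rw [hω]
        exact Submodule.mem_top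
      rw [Set.range_eq_empty, Submodule.span_empty, Submodule.mem_bot] at h1
      exact absurd h1 one_ne_zero
    · exact h0
  have hD0 : D ≠ 0 := by
    rintro rfl
    exact absurd hD (by decide)
  have hd : 1 ≤ N * D * g := Nat.one_le_iff_ne_zero.2 (Nat.mul_ne_zero (Nat.mul_ne_zero (by omega) hD0) (by omega))
  obtain ⟨M, hM, y₀, h⟩ := Pool.Agent.N842.TW.polesW K b g D N ω hω (Nat.coprime_two_right.2 hD) hb hd ε hε ρ hρ A B
  refine ⟨M, hM, y₀, fun L r y hrL hy N' hN' f hf Z hZ hZ2 hZ1 => ?_⟩
  rw [exc_eq]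
  refine h L r y hrL hy N' hN' f hf (sgn '' Z) (hZ.image _) ((Set.ncard_image_le hZ).trans hZ2) ?_ _ fun m hm i hi z hz => ?_
  · rintro _ ⟨z, hz, rfl⟩ e p k
    unfold sgn
    rw [abs_mul, abs_pow, abs_neg, abs_one, one_pow, one_mul]
    exact hZ1 z hz e p k
  · obtain ⟨Λ, hΛ, h1⟩ := hm i hi (sgn z) ⟨z, hz, rfl⟩
    refine ⟨Λ, hΛ, fun s hs ha hb' => ?_⟩
    have h2 := h1 s hs ha hb'
    have e1 : traceProduct z (coeff ω m) i = Pool.Agent.N842.TW.bV (N := N) (D := D) (Pool.Agent.N842.HS.cf ω m) (sgn z) i := by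
      funext v k
      exact traceProduct_eq z (coeff ω m) i v k
    have e2 : expected K N z i = Pool.Agent.N842.TW.bE K N (sgn z) i := by
      funext v k
      exact expected_eq K N z i v k
    rw [e1, e2, L_eq, L_eq]
    exact h2

end Pool.Agent.Results.MP_223b32_ag.WeilRestrictions
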